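import Pool.Agent.R938.ORF.Vol

/-!
# Project OR, piece OR-F: the normalisation
-/

set_option autoImplicit false

namespace Pool.Agent.R938.ORF

open MeasureTheory Set Filter Topology
open scoped ENNReal
open Pool.Agent.R476.OR
open Pool.Agent.W695.KH (Eu)

variable {n : ℕ}

/-- the diagonal map -/
def dg (d : Fin n → ℝ) : Eu (Fin n) →ₗ[ℝ] Eu (Fin n) where
  toFun y := WithLp.toLp 2 fun i => d i * y i
  map_add' x y := by
    ext i
    simp [mul_add]
  map_smul' r x := by
    ext i
    simp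
    ring

theorem dg_det {d : Fin n → ℝ} (hd : ∀ i, 0 < d i) : LinearMap.det (dg d) ≠ 0 := by
  intro h0
  have h1 := LinearMap.bot_lt_ker_of_det_eq_zero h0
  have h2 : LinearMap.ker (dg d) = ⊥ := by
    rw [LinearMap.ker_eq_bot']
    intro y hy
    ext i
    have h3 : (dg d y) i = 0 := by rw [hy]; rfl
    have h4 : d i * y i = 0 := h3
    rcases mul_eq_zero.1 h4 with h | h
    · exact absurd h (hd i).ne'
    · exact h
  rw [h2] at h1
  exact lt_irrefl _ h1

theorem vol_aff (a d : Fin n → ℝ) (hd : ∀ i, 0 < d i) : ∃ c : ℝ≥0∞, c ≠ 0 ∧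
    ∀ K : Set (Eu (Fin n)), volume ((fun x : Eu (Fin n) =>
      (WithLp.toLp 2 (fun i => a i + d i * x i) : Eu (Fin n))) ⁻¹' K) = c * volume K := by
  refine ⟨ENNReal.ofReal |(LinearMap.det (dg d))⁻¹|, ?_, fun K => ?_⟩
  · have := inv_ne_zero (dg_det hd)
    have h2 := abs_pos.2 this
    exact (ENNReal.ofReal_pos.2 h2).ne'
  · have e : (fun x : Eu (Fin n) => (WithLp.toLp 2 (fun i => a i + d i * x i) : Eu (Fin n))) ⁻¹' K
        = (dg d) ⁻¹' ((fun y => (WithLp.toLp 2 a : Eu (Fin n)) + y) ⁻¹' K) := by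
      rfl
    rw [e, Measure.addHaar_preimage_linearMap _ (dg_det hd), measure_preimage_add]

theorem coer_aff {V : ℝ → ℝ} {c B l a d k : ℝ} (hV : Coer V c B) (hl : 0 < l) (hd : 0 < d) :
    Coer (fun t => l * V (a + d * t) + k) (l * c * d) (l * c * |a| + l * B - k) := by
  refine ⟨mul_pos (mul_pos hl hV.1) hd, fun t => ?_⟩
  have h1 := mul_le_mul_of_nonneg_left (hV.2 (a + d * t)) hl.le
  have h2 : d * |t| ≤ |a + d * t| + |a| := by
    have h3 : |d * t| ≤ |a + d * t| + |a| := by
      have := abs_sub (a + d * t) a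
      simpa using this
    rwa [abs_mul, abs_of_pos hd] at h3
  have h3 := mul_le_mul_of_nonneg_left h2 (mul_pos hl hV.1).le
  simp only
  linarith

theorem nrm : S_NRM := by
  intro n V V' hn hV E hb ⟨x0, hx0⟩
  have hco := fun i => coer_all hV hb hx0 i
  obtain ⟨l, hl, hopt⟩ := opt hn (fun i => cv_cont (hV i)) (fun i => cv_convex (hV i))
    (bdd_all hco) hx0
  choose c B hcB using hco
  have hnorm := fun i => norm_one (hV i) (hcB i) hl
  choose a d k hd hNV using hnorm
  obtain ⟨C, hC0, hC⟩ := vol_aff a d hd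
  have hSV : ∀ x : Eu (Fin n), SV (fun i t => l * V i (a i + d i * t) + k i) x
      = l * SV V (WithLp.toLp 2 (fun i => a i + d i * x i)) + ∑ i, k i := by
    intro x
    unfold SV
    rw [Finset.sum_add_distrib, Finset.mul_sum]
  have hmem : ∀ (s : ℝ) (x : Eu (Fin n)),
      x ∈ KV (fun i t => l * V i (a i + d i * t) + k i) (l * s + ∑ i, k i)
      ↔ WithLp.toLp 2 (fun i => a i + d i * x i) ∈ KV V s := by
    intro s x
    change SV _ x ≤ _ ↔ SV V _ ≤ s
    rw [hSV x]
    constructor
    · intro h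
      have h1 : l * SV V (WithLp.toLp 2 (fun i => a i + d i * x i)) ≤ l * s := by linarith
      exact le_of_mul_le_mul_left h1 hl
    · intro h
      have := mul_le_mul_of_nonneg_left h hl.le
      linarith
  have hvol : ∀ s : ℝ, volume (KV (fun i t => l * V i (a i + d i * t) + k i) (l * s + ∑ i, k i))
      = C * volume (KV V s) := by
    intro s
    rw [← hC]
    congr 1
    ext x
    exact hmem s x
  refine ⟨fun i t => l * V i (a i + d i * t) + k i, fun i t => l * d i * V' i (a i + d i * t),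
    l * E + ∑ i, k i, a, d, hNV, ⟨?_, ?_, ?_⟩, hd, hmem E⟩
  · exact bdd_all (fun i => ⟨_, _, coer_aff (hcB i) hl (hd i)⟩) _
  · rw [hvol]
    have := KV_pos (fun i => cv_cont (hV i)) hx0
    exact ENNReal.mul_pos hC0 this.ne'
  · intro s
    have hs : s = l * ((s - ∑ i, k i) / l) + ∑ i, k i := by field_simp; ring
    generalize (s - ∑ i, k i) / l = s1 at hs
    rw [hs, hvol, hvol]
    have key := hopt s1
    have ex : ∀ r : ℝ, ENNReal.ofReal (Real.exp (-(l * r + ∑ i, k i)))
        = ENNReal.ofReal (Real.exp (-(l * r))) * ENNReal.ofReal (Real.exp (-∑ i, k i)) := by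
      intro r
      rw [← ENNReal.ofReal_mul (Real.exp_pos _).le, ← Real.exp_add]
      congr 2
      ring
    rw [ex, ex]
    calc C * volume (KV V s1) * (ENNReal.ofReal (Real.exp (-(l * s1))) * ENNReal.ofReal (Real.exp (-∑ i, k i)))
        = (volume (KV V s1) * ENNReal.ofReal (Real.exp (-(l * s1)))) * (C * ENNReal.ofReal (Real.exp (-∑ i, k i))) := by ring
      _ ≤ (volume (KV V E) * ENNReal.ofReal (Real.exp (-(l * E)))) * (C * ENNReal.ofReal (Real.exp (-∑ i, k i))) :=
          mul_le_mul_left key _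
      _ = _ := by ring

end Pool.Agent.R938.ORF
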