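import Pool.Agent.R476.OR.Stm

/-!
# Project OR, piece OR-F: one-dimensional facts (coercive convex functions, normalisation)
-/

set_option autoImplicit false

namespace Pool.Agent.R938.ORF

open MeasureTheory Set Filter Topology
open scoped ENNReal
open Pool.Agent.R476.OR
open Pool.Agent.Y506.RG (ND)

theorem cv_diff {V V' : ℝ → ℝ} (h : CV V V') : Differentiable ℝ V :=
  fun t => (h.der t).differentiableAt

theorem cv_cont {V V' : ℝ → ℝ} (h : CV V V') : Continuous V := (cv_diff h).continuous

theorem cv_convex {V V' : ℝ → ℝ} (h : CV V V') : ConvexOn ℝ univ V := by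
  apply Monotone.convexOn_univ_of_deriv (cv_diff h)
  have : deriv V = V' := by
    ext t
    exact (h.der t).deriv
  rw [this]
  exact h.mono

/-- coercive -/
def Coer (V : ℝ → ℝ) (c B : ℝ) : Prop := 0 < c ∧ ∀ t, c * |t| - B ≤ V t

theorem coer_of {V : ℝ → ℝ} (hV : ConvexOn ℝ univ V) (hc : Continuous V) {x0 R ε : ℝ} (hR : 0 < R)
    (hε : 0 < ε) (h1 : V x0 + ε ≤ V (x0 + R)) (h2 : V x0 + ε ≤ V (x0 - R)) :
    ∃ c B : ℝ, Coer V c B := by
  obtain ⟨M, hM⟩ := isCompact_Icc.exists_bound_of_continuousOn (s := Icc (x0 - R) (x0 + R))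
    hc.continuousOn
  set c := ε / R with hcd
  have hc0 : 0 < c := div_pos hε hR
  refine ⟨c, |V x0| + c * |x0| + (c * (|x0| + R) + |M|), hc0, fun t => ?_⟩
  have hx0 := neg_abs_le (V x0)
  have hb1 : 0 ≤ |V x0| := abs_nonneg _
  have hb2 : 0 ≤ c * |x0| := by positivity
  have hb3 : 0 ≤ c * (|x0| + R) := by positivity
  have hb4 : 0 ≤ |M| := abs_nonneg _
  rcases le_total t (x0 - R) with h | h
  · -- left
    have h3 : c * (x0 - t) ≤ V t - V x0 := by
      rcases eq_or_lt_of_le h with h4 | h4
      · have : x0 - t = R := by rw [h4]; ring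
        rw [this, hcd, div_mul_cancel₀ _ hR.ne', h4]
        linarith
      · have h5 := hV.slope_mono_adjacent (mem_univ t) (mem_univ x0) h4 (by linarith : x0 - R < x0)
        have e1 : x0 - (x0 - R) = R := by ring
        rw [e1] at h5
        have h6 : (V x0 - V (x0 - R)) / R ≤ -c := by
          rw [div_le_iff₀ hR, hcd]
          have : -(ε / R) * R = -ε := by field_simp
          rw [this]
          linarith
        have h7 : (V (x0 - R) - V t) / (x0 - R - t) ≤ -c := h5.trans h6
        rw [div_le_iff₀ (by linarith)] at h7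
        have h8 : c * R ≤ V (x0 - R) - V x0 := by
          have : c * R = ε := by rw [hcd]; field_simp
          rw [this]; linarith
        nlinarith
    have h4 : |t| ≤ (x0 - t) + |x0| := by
      have : t = x0 - (x0 - t) := by ring
      calc |t| = |x0 - (x0 - t)| := by rw [← this]
        _ ≤ |x0| + |x0 - t| := abs_sub _ _
        _ = (x0 - t) + |x0| := by rw [abs_of_nonneg (by linarith : 0 ≤ x0 - t)]; ring
    have h5 := mul_le_mul_of_nonneg_left h4 hc0.le
    linarith
  rcases le_total (x0 + R) t with h' | h'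
  · -- right
    have h3 : c * (t - x0) ≤ V t - V x0 := by
      rcases eq_or_lt_of_le h' with h4 | h4
      · have : t - x0 = R := by rw [← h4]; ring
        rw [this, hcd, div_mul_cancel₀ _ hR.ne', ← h4]
        linarith
      · have h5 := hV.slope_mono_adjacent (mem_univ x0) (mem_univ t) (by linarith : x0 < x0 + R) h4
        have e1 : x0 + R - x0 = R := by ring
        rw [e1] at h5
        have h6 : c ≤ (V (x0 + R) - V x0) / R := by
          rw [le_div_iff₀ hR, hcd]
          have : ε / R * R = ε := by field_simp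
          rw [this]
          linarith
        have h7 : c ≤ (V t - V (x0 + R)) / (t - (x0 + R)) := h6.trans h5
        rw [le_div_iff₀ (by linarith)] at h7
        have h8 : c * R ≤ V (x0 + R) - V x0 := by
          have : c * R = ε := by rw [hcd]; field_simp
          rw [this]; linarith
        nlinarith
    have h4 : |t| ≤ (t - x0) + |x0| := by
      have : t = x0 + (t - x0) := by ring
      calc |t| = |x0 + (t - x0)| := by rw [← this]
        _ ≤ |x0| + |t - x0| := abs_add_le _ _
        _ = (t - x0) + |x0| := by rw [abs_of_nonneg (by linarith : 0 ≤ t - x0)]; ring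
    have h5 := mul_le_mul_of_nonneg_left h4 hc0.le
    linarith
  · -- middle
    have h3 := hM t ⟨h, h'⟩
    rw [Real.norm_eq_abs] at h3
    have h4 := neg_abs_le (V t)
    have h5 : |t| ≤ |x0| + R := by
      rw [abs_le]
      constructor
      · linarith [neg_abs_le x0]
      · linarith [le_abs_self x0]
    have h6 := mul_le_mul_of_nonneg_left h5 hc0.le
    have h7 := le_abs_self M
    linarith

/-! ### integrability -/

theorem exp_bound {k : ℝ} (hk : 0 < k) : ∃ C : ℝ, 0 < C ∧ ∀ t : ℝ,
    (1 + t ^ 2) * Real.exp (-(k * |t|)) ≤ C * (1 + t ^ 2)⁻¹ := by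
  refine ⟨2 + 48 / k ^ 4, by positivity, fun t => ?_⟩
  have h1 : (1 + t ^ 2) ^ 2 ≤ (2 + 48 / k ^ 4) * Real.exp (k * |t|) := by
    have hx : 0 ≤ k * |t| := by positivity
    have h2 := Real.pow_div_factorial_le_exp (k * |t|) hx 4
    have h3 : 1 ≤ Real.exp (k * |t|) := Real.one_le_exp hx
    have h4 : t ^ 4 ≤ 24 / k ^ 4 * Real.exp (k * |t|) := by
      have e1 : (k * |t|) ^ 4 = k ^ 4 * t ^ 4 := by
        rw [mul_pow, pow_abs, abs_of_nonneg (by positivity : (0 : ℝ) ≤ t ^ 4)]
      rw [e1] at h2
      have e2 : ((4 : ℕ).factorial : ℝ) = 24 := by norm_num [Nat.factorial]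
      rw [e2, div_le_iff₀ (by norm_num)] at h2
      rw [div_mul_eq_mul_div, le_div_iff₀ (by positivity)]
      linarith
    have h5 : (1 + t ^ 2) ^ 2 ≤ 2 + 2 * t ^ 4 := by nlinarith [sq_nonneg (t ^ 2 - 1)]
    have h6 : (48 : ℝ) / k ^ 4 = 2 * (24 / k ^ 4) := by ring
    rw [h6]
    nlinarith
  rw [Real.exp_neg, ← div_eq_mul_inv, ← div_eq_mul_inv, div_le_div_iff₀ (Real.exp_pos _) (by positivity)]
  nlinarith

theorem int_w {V : ℝ → ℝ} {c B : ℝ} (hV : Coer V c B) (hc : Continuous V) {l : ℝ} (hl : 0 < l) :
    Integrable fun t => (1 + t ^ 2) * Real.exp (-(l * V t)) := by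
  obtain ⟨C, hC, h⟩ := exp_bound (mul_pos hl hV.1)
  refine (integrable_inv_one_add_sq.const_mul (Real.exp (l * B) * C)).mono'
    (by fun_prop) (Eventually.of_forall fun t => ?_)
  rw [Real.norm_of_nonneg (by positivity)]
  have h1 : Real.exp (-(l * V t)) ≤ Real.exp (l * B) * Real.exp (-(l * c * |t|)) := by
    rw [← Real.exp_add]
    apply Real.exp_le_exp.2
    have := mul_le_mul_of_nonneg_left (hV.2 t) hl.le
    linarith
  calc (1 + t ^ 2) * Real.exp (-(l * V t))
      ≤ (1 + t ^ 2) * (Real.exp (l * B) * Real.exp (-(l * c * |t|))) :=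
        mul_le_mul_of_nonneg_left h1 (by positivity)
    _ = Real.exp (l * B) * ((1 + t ^ 2) * Real.exp (-(l * c * |t|))) := by ring
    _ ≤ Real.exp (l * B) * (C * (1 + t ^ 2)⁻¹) :=
        mul_le_mul_of_nonneg_left (h t) (Real.exp_pos _).le
    _ = Real.exp (l * B) * C * (1 + t ^ 2)⁻¹ := by ring

theorem int_dom {V φ : ℝ → ℝ} {c B : ℝ} (hV : Coer V c B) (hc : Continuous V) {l : ℝ} (hl : 0 < l)
    (hφ : Continuous φ) {K : ℝ} (hb : ∀ t, |φ t| ≤ K * (1 + t ^ 2)) :
    Integrable fun t => φ t * Real.exp (-(l * V t)) := by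
  refine ((int_w hV hc hl).const_mul K).mono' (by fun_prop) (Eventually.of_forall fun t => ?_)
  rw [norm_mul, Real.norm_eq_abs, Real.norm_of_nonneg (Real.exp_pos _).le, ← mul_assoc]
  exact mul_le_mul_of_nonneg_right (hb t) (Real.exp_pos _).le

/-! ### affine changes of variables -/

theorem cov (h : ℝ → ℝ) (a : ℝ) {d : ℝ} (hd : 0 < d) : ∫ t, h (a + d * t) = d⁻¹ * ∫ y, h y := by
  have h1 := Measure.integral_comp_mul_left (fun x => h (a + x)) d
  rw [h1, integral_add_left_eq_self, abs_of_pos (inv_pos.2 hd)]
  rfl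

theorem icov {h : ℝ → ℝ} (hi : Integrable h) (a : ℝ) {d : ℝ} (hd : 0 < d) :
    Integrable fun t => h (a + d * t) :=
  (hi.comp_add_left a).comp_mul_left' hd.ne'

/-- **normalisation in one dimension** -/
theorem norm_one {V V' : ℝ → ℝ} (hV : CV V V') {c B : ℝ} (hco : Coer V c B) {l : ℝ} (hl : 0 < l) :
    ∃ a d k : ℝ, 0 < d ∧ NV (fun t => l * V (a + d * t) + k) (fun t => l * d * V' (a + d * t)) := by
  have hc := cv_cont hV
  set g : ℝ → ℝ := fun t => Real.exp (-(l * V t)) with hg
  have hg0 : Integrable g := by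
    have := int_dom hco hc hl (φ := fun _ => 1) continuous_const (K := 1) (fun t => by
      rw [abs_one, one_mul]
      nlinarith [sq_nonneg t])
    simpa only [one_mul] using this
  have hg1 : Integrable fun t => t * g t :=
    int_dom hco hc hl (φ := fun t => t) continuous_id (K := 1) (fun t => by
      rw [abs_le]
      constructor <;> nlinarith [sq_nonneg (t - 1), sq_nonneg (t + 1)])
  have hg2 : Integrable fun t => t ^ 2 * g t :=
    int_dom hco hc hl (φ := fun t => t ^ 2) (by fun_prop) (K := 1) (fun t => by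
      rw [abs_of_nonneg (sq_nonneg t)]
      nlinarith)
  have hgp : ∀ t, 0 < g t := fun t => Real.exp_pos _
  set Z := ∫ t, g t with hZ
  have hZ0 : 0 < Z := integral_exp_pos hg0
  set a := (∫ t, t * g t) / Z with ha
  have hva : Integrable fun t => (t - a) ^ 2 * g t := by
    have e : ∀ t, (t - a) ^ 2 * g t = t ^ 2 * g t - 2 * a * (t * g t) + a ^ 2 * g t := by
      intro t; ring
    simp only [e]
    exact (hg2.sub (hg1.const_mul _)).add (hg0.const_mul _)
  set v := (∫ t, (t - a) ^ 2 * g t) / Z with hv
  have hv0 : 0 < v := by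
    apply div_pos _ hZ0
    rw [integral_pos_iff_support_of_nonneg (fun t => mul_nonneg (sq_nonneg _) (hgp t).le) hva]
    have h2 : Ioi a ⊆ Function.support (fun t => (t - a) ^ 2 * g t) := by
      intro t ht
      have ht' : 0 < t - a := sub_pos.2 ht
      exact (mul_pos (pow_pos ht' 2) (hgp t)).ne'
    refine lt_of_lt_of_le ?_ (measure_mono h2)
    simp
  set d := Real.sqrt v with hd
  have hd0 : 0 < d := Real.sqrt_pos.2 hv0
  have hdd : d * d = v := Real.mul_self_sqrt hv0.le
  refine ⟨a, d, Real.log Z - Real.log d, hd0, ⟨?_, ?_, ?_⟩, ?_⟩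
  · intro t
    have h1 : HasDerivAt (fun t : ℝ => a + d * t) d t := by
      have := ((hasDerivAt_id t).const_mul d).const_add a
      simpa using this
    have h2 := ((hV.der (a + d * t)).comp t h1).const_mul l
    exact (h2.add_const _).congr_deriv (by ring)
  · intro s t hst
    apply mul_le_mul_of_nonneg_left _ (mul_pos hl hd0).le
    apply hV.mono
    have := mul_le_mul_of_nonneg_left hst hd0.le
    linarith
  · have := hV.cont
    fun_prop
  · have hf : ∀ t, Real.exp (-(l * V (a + d * t) + (Real.log Z - Real.log d)))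
        = d / Z * g (a + d * t) := by
      intro t
      have : -(l * V (a + d * t) + (Real.log Z - Real.log d))
          = Real.log d - Real.log Z + -(l * V (a + d * t)) := by ring
      rw [this, Real.exp_add, Real.exp_sub, Real.exp_log hd0, Real.exp_log hZ0]
    have hgc : Continuous g := by simp only [hg]; fun_prop
    constructor
    · intro s; exact Real.exp_pos _
    · fun_prop
    · intro x y t ht0 ht1
      rw [← Real.exp_mul, ← Real.exp_mul, ← Real.exp_add]
      apply Real.exp_le_exp.2
      have h1 := (cv_convex hV).2 (mem_univ (a + d * x)) (mem_univ (a + d * y))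
        (by linarith : (0 : ℝ) ≤ 1 - t) ht0.le (by ring)
      simp only [smul_eq_mul] at h1
      have e : (1 - t) * (a + d * x) + t * (a + d * y) = a + d * ((1 - t) * x + t * y) := by ring
      rw [e] at h1
      have h2 := mul_le_mul_of_nonneg_left h1 hl.le
      linarith
    · simp only [hf]
      exact (icov hg0 a hd0).const_mul _
    · simp only [hf]
      have h1 := (icov hva a hd0).const_mul ((d * d)⁻¹ * (d / Z))
      refine h1.congr (Eventually.of_forall fun t => ?_)
      simp only
      field_simp
      ring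
    · simp only [hf]
      rw [integral_const_mul, cov g a hd0]
      rw [← hZ]
      field_simp
    · simp only [hf]
      have e : ∀ t, t * (d / Z * g (a + d * t))
          = Z⁻¹ * ((fun y => (y - a) * g y) (a + d * t)) := by
        intro t
        simp only
        field_simp
        ring
      simp only [e]
      rw [integral_const_mul, cov (fun y => (y - a) * g y) a hd0]
      have e2 : ∫ y, (y - a) * g y = 0 := by
        have e3 : ∀ y, (y - a) * g y = y * g y - a * g y := by intro y; ring
        simp only [e3]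
        rw [integral_sub hg1 (hg0.const_mul _), integral_const_mul, ← hZ, ha]
        field_simp
        ring
      rw [e2]
      ring
    · simp only [hf]
      have e : ∀ t, t ^ 2 * (d / Z * g (a + d * t))
          = ((d * Z)⁻¹) * ((fun y => (y - a) ^ 2 * g y) (a + d * t)) := by
        intro t
        simp only
        field_simp
        ring
      simp only [e]
      rw [integral_const_mul, cov (fun y => (y - a) ^ 2 * g y) a hd0]
      have e2 : ∫ y, (y - a) ^ 2 * g y = d * d * Z := by
        rw [hdd, hv]
        field_simp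
      rw [e2]
      field_simp

end Pool.Agent.R938.ORF
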