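import Pool.Agent.R938.ORF.One
import Pool.Agent.H212R2.KLS.T1

/-!
# Project OR, piece OR-F: volumes of the sublevel sets
-/

set_option autoImplicit false

namespace Pool.Agent.R938.ORF

open MeasureTheory Set Filter Topology
open scoped ENNReal
open Pool.Agent.R476.OR
open Pool.Agent.W695.KH (Eu)

variable {n : ℕ}

theorem SV_cont {V : Fin n → ℝ → ℝ} (h : ∀ i, Continuous (V i)) : Continuous (SV V) := by
  unfold SV
  exact continuous_finsetSum _ fun i _ => (h i).comp (by fun_prop)

theorem SV_conv {V : Fin n → ℝ → ℝ} (h : ∀ i, ConvexOn ℝ univ (V i)) (x y : Eu (Fin n)) {t : ℝ}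
    (h0 : 0 ≤ t) (h1 : t ≤ 1) :
    SV V ((1 - t) • x + t • y) ≤ (1 - t) * SV V x + t * SV V y := by
  unfold SV
  rw [Finset.mul_sum, Finset.mul_sum, ← Finset.sum_add_distrib]
  refine Finset.sum_le_sum fun i _ => ?_
  have := (h i).2 (mem_univ (x i)) (mem_univ (y i)) (by linarith : (0 : ℝ) ≤ 1 - t) h0 (by ring)
  simpa using this

theorem SV_shift (V : Fin n → ℝ → ℝ) (x : Eu (Fin n)) (i : Fin n) (r : ℝ) :
    SV V (x + r • EuclideanSpace.single i (1 : ℝ)) = SV V x - V i (x i) + V i (x i + r) := by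
  unfold SV
  rw [← Finset.add_sum_erase Finset.univ _ (Finset.mem_univ i),
    ← Finset.add_sum_erase Finset.univ (fun j => V j (x j)) (Finset.mem_univ i)]
  have h1 : ∑ j ∈ Finset.univ.erase i, V j ((x + r • EuclideanSpace.single i (1 : ℝ)) j)
      = ∑ j ∈ Finset.univ.erase i, V j (x j) := by
    refine Finset.sum_congr rfl fun j hj => ?_
    have hne : j ≠ i := Finset.ne_of_mem_erase hj
    congr 1
    simp [hne]
  rw [h1]
  have h2 : (x + r • EuclideanSpace.single i (1 : ℝ)) i = x i + r := by simp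
  rw [h2]
  ring

theorem coer_all {V V' : Fin n → ℝ → ℝ} (h : ∀ i, CV (V i) (V' i)) {E : ℝ}
    (hb : Bornology.IsBounded (KV V E)) {x0 : Eu (Fin n)} (hx0 : SV V x0 < E) (i : Fin n) :
    ∃ c B : ℝ, Coer (V i) c B := by
  obtain ⟨ρ, hρ⟩ := hb.subset_closedBall 0
  set R := |ρ| + ‖x0‖ + 1 with hR
  have hR0 : 0 < R := by positivity
  have hout : ∀ r : ℝ, |r| = R → E < SV V (x0 + r • EuclideanSpace.single i (1 : ℝ)) := by
    intro r hr
    by_contra hcon
    have h1 : x0 + r • EuclideanSpace.single i (1 : ℝ) ∈ KV V E := not_lt.1 hcon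
    have h2 := hρ h1
    rw [mem_closedBall_zero_iff] at h2
    have h3 : ‖r • EuclideanSpace.single i (1 : ℝ)‖ ≤ ‖x0 + r • EuclideanSpace.single i (1 : ℝ)‖ + ‖x0‖ := by
      have := norm_sub_le (x0 + r • EuclideanSpace.single i (1 : ℝ)) x0
      simpa using this
    have h4 : ‖r • EuclideanSpace.single i (1 : ℝ)‖ = R := by
      rw [norm_smul, Real.norm_eq_abs, hr]
      simp
    rw [h4] at h3
    have := le_abs_self ρ
    linarith
  refine coer_of (cv_convex (h i)) (cv_cont (h i)) (x0 := x0 i) (R := R) (ε := E - SV V x0) hR0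
    (by linarith) ?_ ?_
  · have h1 := hout R (abs_of_pos hR0)
    rw [SV_shift] at h1
    linarith
  · have h1 := hout (-R) (by rw [abs_neg, abs_of_pos hR0])
    rw [SV_shift] at h1
    have : x0 i + -R = x0 i - R := by ring
    rw [this] at h1
    linarith

theorem bdd_all {V : Fin n → ℝ → ℝ} (h : ∀ i, ∃ c B : ℝ, Coer (V i) c B) (s : ℝ) :
    Bornology.IsBounded (KV V s) := by
  choose c B hcB using h
  set T := s + ∑ i, B i with hT
  refine Metric.isBounded_closedBall.subset (s := KV V s)
    (t := Metric.closedBall (0 : Eu (Fin n)) (Real.sqrt (∑ i, (T / c i) ^ 2))) ?_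
  intro x hx
  rw [mem_closedBall_zero_iff, EuclideanSpace.norm_eq]
  apply Real.sqrt_le_sqrt
  refine Finset.sum_le_sum fun i _ => ?_
  have hc : 0 < c i := (hcB i).1
  have h1 : ∑ j, c j * |x j| ≤ T := by
    have h2 : ∑ j, c j * |x j| ≤ ∑ j, (V j (x j) + B j) :=
      Finset.sum_le_sum fun j _ => by linarith [(hcB j).2 (x j)]
    rw [Finset.sum_add_distrib] at h2
    have h3 : ∑ j, V j (x j) ≤ s := hx
    linarith
  have h2 : c i * |x i| ≤ T :=
    (Finset.single_le_sum (f := fun j => c j * |x j|)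
      (fun j _ => mul_nonneg (hcB j).1.le (abs_nonneg _)) (Finset.mem_univ i)).trans h1
  have h3 : |x i| ≤ T / c i := by
    rw [le_div_iff₀ hc]
    linarith
  rw [Real.norm_eq_abs]
  exact pow_le_pow_left₀ (abs_nonneg _) h3 2

theorem KV_meas {V : Fin n → ℝ → ℝ} (h : ∀ i, Continuous (V i)) (s : ℝ) :
    MeasurableSet (KV V s) := (isClosed_le (SV_cont h) continuous_const).measurableSet

theorem KV_pos {V : Fin n → ℝ → ℝ} (h : ∀ i, Continuous (V i)) {x0 : Eu (Fin n)} {s : ℝ}
    (hs : SV V x0 < s) : 0 < volume (KV V s) := by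
  have ho : IsOpen {x | SV V x < s} := isOpen_lt (SV_cont h) continuous_const
  refine lt_of_lt_of_le (ho.measure_pos volume ⟨x0, hs⟩) (measure_mono fun x hx => ?_)
  exact le_of_lt (show SV V x < s from hx)

theorem pl {V : Fin n → ℝ → ℝ} (hc : ∀ i, Continuous (V i)) (h : ∀ i, ConvexOn ℝ univ (V i))
    {s s' E t : ℝ} (ht0 : 0 < t) (ht1 : t < 1) (hE : (1 - t) * s + t * s' = E) :
    volume (KV V s) ^ (1 - t) * volume (KV V s') ^ t ≤ volume (KV V E) := by
  have key := Pool.Agent.H212R2.KLS.PL (volume : Measure (Eu (Fin n))) t ht0 ht1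
    ((KV V s).indicator 1) ((KV V s').indicator 1) ((KV V E).indicator 1)
    (measurable_one.indicator (KV_meas hc s)) (measurable_one.indicator (KV_meas hc s'))
    (measurable_one.indicator (KV_meas hc E)) (fun x y => by
      by_cases hx : x ∈ KV V s
      · by_cases hy : y ∈ KV V s'
        · have hz : (1 - t) • x + t • y ∈ KV V E := by
            have h1 := SV_conv h x y ht0.le ht1.le
            have hx' : SV V x ≤ s := hx
            have hy' : SV V y ≤ s' := hy
            have h2 := mul_le_mul_of_nonneg_left hx' (by linarith : (0 : ℝ) ≤ 1 - t)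
            have h3 := mul_le_mul_of_nonneg_left hy' ht0.le
            change SV V _ ≤ E
            linarith
          rw [indicator_of_mem hx, indicator_of_mem hy, indicator_of_mem hz]
          simp
        · rw [indicator_of_notMem hy, ENNReal.zero_rpow_of_pos ht0, mul_zero]
          exact zero_le
      · rw [indicator_of_notMem hx, ENNReal.zero_rpow_of_pos (by linarith), zero_mul]
        exact zero_le)
  rw [lintegral_indicator_one (KV_meas hc s), lintegral_indicator_one (KV_meas hc s'),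
    lintegral_indicator_one (KV_meas hc E)] at key
  exact key

/-- concavity of the logarithm of the volume -/
theorem conc {V : Fin n → ℝ → ℝ} (hc : ∀ i, Continuous (V i)) (h : ∀ i, ConvexOn ℝ univ (V i))
    (hb : ∀ s, Bornology.IsBounded (KV V s)) {s s' E : ℝ} (h1 : s < E) (h2 : E < s')
    (hp : 0 < volume (KV V s)) (hp' : 0 < volume (KV V s')) :
    (s' - E) * Real.log (volume (KV V s)).toReal + (E - s) * Real.log (volume (KV V s')).toReal
      ≤ (s' - s) * Real.log (volume (KV V E)).toReal := by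
  set t := (E - s) / (s' - s) with ht
  have hss : 0 < s' - s := by linarith
  have ht0 : 0 < t := div_pos (by linarith) hss
  have ht1 : t < 1 := by rw [ht, div_lt_one hss]; linarith
  have hE : (1 - t) * s + t * s' = E := by
    have : t * (s' - s) = E - s := by rw [ht]; field_simp
    linarith
  have key := pl hc h ht0 ht1 hE
  have fin : ∀ r, volume (KV V r) ≠ ⊤ := fun r => (hb r).measure_lt_top.ne
  have key2 := ENNReal.toReal_mono (fin E) key
  rw [ENNReal.toReal_mul, ← ENNReal.toReal_rpow, ← ENNReal.toReal_rpow] at key2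
  have p1 : 0 < (volume (KV V s)).toReal := ENNReal.toReal_pos hp.ne' (fin s)
  have p2 : 0 < (volume (KV V s')).toReal := ENNReal.toReal_pos hp'.ne' (fin s')
  have key3 := Real.log_le_log (mul_pos (Real.rpow_pos_of_pos p1 _) (Real.rpow_pos_of_pos p2 _)) key2
  rw [Real.log_mul (Real.rpow_pos_of_pos p1 _).ne' (Real.rpow_pos_of_pos p2 _).ne',
    Real.log_rpow p1, Real.log_rpow p2] at key3
  have e1 : 1 - t = (s' - E) / (s' - s) := by rw [ht]; field_simp; ring
  rw [e1, ht] at key3
  have key4 := mul_le_mul_of_nonneg_left key3 hss.le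
  have e2 : (s' - s) * ((s' - E) / (s' - s) * Real.log (volume (KV V s)).toReal
      + (E - s) / (s' - s) * Real.log (volume (KV V s')).toReal)
      = (s' - E) * Real.log (volume (KV V s)).toReal
        + (E - s) * Real.log (volume (KV V s')).toReal := by
    field_simp
  rw [e2] at key4
  exact key4

/-- some sublevel set is larger -/
theorem bigger {V : Fin n → ℝ → ℝ} (hn : 1 ≤ n) (hc : ∀ i, Continuous (V i))
    (hb : ∀ s, Bornology.IsBounded (KV V s)) (E : ℝ) :
    ∃ s', E < s' ∧ volume (KV V E) < volume (KV V s') := by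
  obtain ⟨ρ, hρ⟩ := (hb E).subset_closedBall 0
  set R := |ρ| with hR
  have hR0 : 0 ≤ R := abs_nonneg _
  have hsub : KV V E ⊆ Metric.closedBall 0 R :=
    hρ.trans (Metric.closedBall_subset_closedBall (le_abs_self ρ))
  obtain ⟨M, hM⟩ := (isCompact_closedBall (0 : Eu (Fin n)) (R + 1)).exists_bound_of_continuousOn
    (SV_cont hc).continuousOn
  refine ⟨max E M + 1, by linarith [le_max_left E M], ?_⟩
  have hsup : Metric.closedBall (0 : Eu (Fin n)) (R + 1) ⊆ KV V (max E M + 1) := by
    intro x hx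
    have h1 := hM x hx
    rw [Real.norm_eq_abs] at h1
    have h2 := le_abs_self (SV V x)
    have h3 := le_max_right E M
    change SV V x ≤ _
    linarith
  refine lt_of_le_of_lt (measure_mono hsub) (lt_of_lt_of_le ?_ (measure_mono hsup))
  rw [Measure.addHaar_closedBall _ _ hR0, Measure.addHaar_closedBall _ _ (by linarith)]
  have hfr : Module.finrank ℝ (Eu (Fin n)) = n := by simp
  rw [hfr]
  have hb1 : volume (Metric.ball (0 : Eu (Fin n)) 1) ≠ 0 :=
    (Metric.measure_ball_pos volume _ one_pos).ne'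
  have hb2 : volume (Metric.ball (0 : Eu (Fin n)) 1) ≠ ⊤ := Metric.isBounded_ball.measure_lt_top.ne
  have hpow : R ^ n < (R + 1) ^ n := pow_lt_pow_left₀ (by linarith) hR0 (by omega)
  have h1 : ENNReal.ofReal (R ^ n) < ENNReal.ofReal ((R + 1) ^ n) :=
    (ENNReal.ofReal_lt_ofReal_iff (by positivity)).2 hpow
  exact (ENNReal.mul_lt_mul_iff_left hb1 hb2).2 h1

/-- **the optimal weight** -/
theorem opt {V : Fin n → ℝ → ℝ} (hn : 1 ≤ n) (hc : ∀ i, Continuous (V i))
    (h : ∀ i, ConvexOn ℝ univ (V i)) (hb : ∀ s, Bornology.IsBounded (KV V s)) {E : ℝ}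
    {x0 : Eu (Fin n)} (hx0 : SV V x0 < E) :
    ∃ l : ℝ, 0 < l ∧ ∀ s : ℝ, volume (KV V s) * ENNReal.ofReal (Real.exp (-(l * s))) ≤
      volume (KV V E) * ENNReal.ofReal (Real.exp (-(l * E))) := by
  have fin : ∀ r, volume (KV V r) ≠ ⊤ := fun r => (hb r).measure_lt_top.ne
  set q : ℝ → ℝ := fun s => Real.log (volume (KV V s)).toReal with hq
  set A : Set ℝ := {y | ∃ s, E < s ∧ y = (q s - q E) / (s - E)} with hA
  have hpE : 0 < volume (KV V E) := KV_pos hc hx0
  have hpos : ∀ s, E < s → 0 < volume (KV V s) := fun s hs => KV_pos hc (hx0.trans hs)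
  have hub : ∀ s, s < E → 0 < volume (KV V s) → ∀ y ∈ A, y ≤ (q E - q s) / (E - s) := by
    rintro s hs hp y ⟨s', hs', rfl⟩
    have h1 := conc hc h hb hs hs' hp (hpos s' hs')
    rw [div_le_div_iff₀ (by linarith) (by linarith)]
    simp only [hq]
    nlinarith
  have hs1 : (SV V x0 + E) / 2 < E := by linarith
  have hp1 : 0 < volume (KV V ((SV V x0 + E) / 2)) := KV_pos hc (x0 := x0) (by linarith)
  have hbdd : BddAbove A := ⟨_, fun y hy => hub _ hs1 hp1 y hy⟩
  have hne : A.Nonempty := ⟨_, E + 1, by linarith, rfl⟩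
  set l := sSup A with hl
  have hl0 : 0 < l := by
    obtain ⟨s', hs', hlt⟩ := bigger hn hc hb E
    have h1 : (q s' - q E) / (s' - E) ≤ l := le_csSup hbdd ⟨s', hs', rfl⟩
    refine lt_of_lt_of_le ?_ h1
    apply div_pos _ (by linarith)
    have h2 : (volume (KV V E)).toReal < (volume (KV V s')).toReal :=
      (ENNReal.toReal_lt_toReal (fin _) (fin _)).2 hlt
    have h3 := Real.log_lt_log (ENNReal.toReal_pos hpE.ne' (fin E)) h2
    simp only [hq]
    linarith
  refine ⟨l, hl0, fun s => ?_⟩
  rcases eq_or_ne (volume (KV V s)) 0 with h0 | h0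
  · rw [h0, zero_mul]
    exact zero_le
  have hps : 0 < volume (KV V s) := pos_iff_ne_zero.2 h0
  have hlog : q s ≤ q E + l * (s - E) := by
    rcases lt_trichotomy s E with hs | hs | hs
    · have h1 : l ≤ (q E - q s) / (E - s) := csSup_le hne (hub s hs hps)
      rw [le_div_iff₀ (by linarith)] at h1
      linarith
    · rw [hs]
      linarith
    · have h1 : (q s - q E) / (s - E) ≤ l := le_csSup hbdd ⟨s, hs, rfl⟩
      rw [div_le_iff₀ (by linarith)] at h1
      linarith
  have p1 : 0 < (volume (KV V s)).toReal := ENNReal.toReal_pos h0 (fin s)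
  have p2 : 0 < (volume (KV V E)).toReal := ENNReal.toReal_pos hpE.ne' (fin E)
  have h2 : (volume (KV V s)).toReal * Real.exp (-(l * s))
      ≤ (volume (KV V E)).toReal * Real.exp (-(l * E)) := by
    have h3 := Real.exp_le_exp.2 hlog
    simp only [hq] at h3
    rw [Real.exp_add, Real.exp_log p1, Real.exp_log p2] at h3
    have h4 := mul_le_mul_of_nonneg_right h3 (Real.exp_pos (-(l * s))).le
    rw [mul_assoc, ← Real.exp_add] at h4
    have e : l * (s - E) + -(l * s) = -(l * E) := by ring
    rwa [e] at h4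
  rw [← ENNReal.ofReal_toReal (fin s), ← ENNReal.ofReal_toReal (fin E),
    ← ENNReal.ofReal_mul ENNReal.toReal_nonneg, ← ENNReal.ofReal_mul ENNReal.toReal_nonneg]
  exact ENNReal.ofReal_le_ofReal h2

end Pool.Agent.R938.ORF
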